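import Pool.Agent.Helper6.NX.GoalsC

/-! Packet NX-C2: conditioning on quotients; a general group. -/

set_option linter.unusedVariables false

namespace Pool.Agent.Helper11.NX

open Pool.Agent.Helper6.NX

section
variable {G : Type} [Group G] [Fintype G]

/-- telescoping -/
theorem tele (f h : G → ℝ) (hf0 : ∀ a, 0 ≤ f a) (hh0 : ∀ a, 0 ≤ h a) (hf : ∑ a, f a = 1)
    (hh : ∑ a, h a = 1) (m : ℕ) :
    ∑ c : Fin m → G, |∏ j, f (c j) - ∏ j, h (c j)| ≤ m * ∑ a, |f a - h a| := by
  induction m with
  | zero => simp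
  | succ m ih =>
    have e : ∀ F : (Fin (m + 1) → G) → ℝ,
        ∑ c, F c = ∑ a : G, ∑ c' : Fin m → G, F (Fin.cons a c') := by
      intro F
      rw [← (Fin.consEquiv (fun _ => G)).sum_comp, Fintype.sum_prod_type]
      rfl
    rw [e]
    have h1 : ∀ (a : G) (c' : Fin m → G),
        |∏ j, f ((Fin.cons a c' : Fin (m + 1) → G) j) -
          ∏ j, h ((Fin.cons a c' : Fin (m + 1) → G) j)| ≤
        |f a - h a| * ∏ j, f (c' j) + h a * |∏ j, f (c' j) - ∏ j, h (c' j)| := by
      intro a c'
      rw [Fin.prod_univ_succ, Fin.prod_univ_succ]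
      simp only [Fin.cons_zero, Fin.cons_succ]
      have h2 : f a * ∏ j, f (c' j) - h a * ∏ j, h (c' j) =
          (f a - h a) * ∏ j, f (c' j) + h a * (∏ j, f (c' j) - ∏ j, h (c' j)) := by ring
      rw [h2]
      refine (abs_add_le _ _).trans ?_
      rw [abs_mul, abs_mul, abs_of_nonneg (hh0 a),
        abs_of_nonneg (Finset.prod_nonneg fun j _ => hf0 (c' j))]
    have h3 : ∑ c' : Fin m → G, ∏ j, f (c' j) = 1 := by
      rw [← Fintype.sum_pow, hf, one_pow]
    calc ∑ a : G, ∑ c' : Fin m → G, |∏ j, f ((Fin.cons a c' : Fin (m + 1) → G) j) -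
          ∏ j, h ((Fin.cons a c' : Fin (m + 1) → G) j)|
        ≤ ∑ a : G, ∑ c' : Fin m → G,
          (|f a - h a| * ∏ j, f (c' j) + h a * |∏ j, f (c' j) - ∏ j, h (c' j)|) :=
          Finset.sum_le_sum fun a _ => Finset.sum_le_sum fun c' _ => h1 a c'
      _ = ∑ a : G, (|f a - h a| + h a * ∑ c' : Fin m → G, |∏ j, f (c' j) - ∏ j, h (c' j)|) := by
          refine Finset.sum_congr rfl fun a _ => ?_
          rw [Finset.sum_add_distrib, ← Finset.mul_sum, ← Finset.mul_sum, h3, mul_one]
      _ = ∑ a, |f a - h a| + ∑ c' : Fin m → G, |∏ j, f (c' j) - ∏ j, h (c' j)| := by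
          rw [Finset.sum_add_distrib, ← Finset.sum_mul, hh, one_mul]
      _ ≤ ∑ a, |f a - h a| + m * ∑ a, |f a - h a| := by linarith
      _ = ((m + 1 : ℕ) : ℝ) * ∑ a, |f a - h a| := by push_cast; ring

/-- the tuple from the quotients and the first entry -/
def ge (G : Type) [Group G] (m : ℕ) : (Fin m → G) × G ≃ (Fin (m + 1) → G) where
  toFun z := Fin.cons z.2 (fun j => (z.1 j)⁻¹ * z.2)
  invFun c := (fun j => c 0 * (c j.succ)⁻¹, c 0)
  left_inv z := by
    refine Prod.ext (funext fun j => ?_) ?_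
    · simp
    · simp
  right_inv c := by
    funext j
    refine Fin.cases ?_ (fun i => ?_) j
    · simp
    · simp

/-- the weight of the tuple -/
noncomputable def J (lam : G → ℝ) (m : ℕ) (g : Fin m → G) (a : G) : ℝ :=
  lam a * ∏ j, lam ((g j)⁻¹ * a)

theorem J_ge (lam : G → ℝ) (m : ℕ) (z : (Fin m → G) × G) :
    ∏ j, lam (ge G m z j) = J lam m z.1 z.2 := by
  rw [Fin.prod_univ_succ]
  rfl

theorem J_nonneg (lam : G → ℝ) (h : ∀ a, 0 ≤ lam a) (m : ℕ) (g : Fin m → G) (a : G) :
    0 ≤ J lam m g a := mul_nonneg (h a) (Finset.prod_nonneg fun j _ => h _)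

/-- probability of the quotients -/
noncomputable def Z (lam : G → ℝ) (m : ℕ) (g : Fin m → G) : ℝ := ∑ a, J lam m g a

theorem H_eq (q : G → ℝ) : H q = -∑ a, q a * Real.log (q a) := by
  unfold H ent
  congr 1
  refine Finset.sum_congr rfl fun a _ => ?_
  congr 2
  unfold law
  rw [Finset.sum_eq_single a]
  · simp
  · intro b _ hb
    rw [if_neg hb]
  · intro h
    exact absurd (Finset.mem_univ _) h

theorem cent_eq (lam : G → ℝ) (m : ℕ) :
    cent (fun c : Fin (m + 1) → G => ∏ j, lam (c j)) (fun c => c 0)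
      (fun c => fun j : Fin m => c 0 * (c j.succ)⁻¹) =
    ∑ g : Fin m → G, ∑ a, J lam m g a * (Real.log (Z lam m g) - Real.log (J lam m g a)) := by
  classical
  have h1 : ∀ c : Fin (m + 1) → G, law (fun c : Fin (m + 1) → G => ∏ j, lam (c j))
      (fun c => (c 0, fun j : Fin m => c 0 * (c j.succ)⁻¹))
      (c 0, fun j : Fin m => c 0 * (c j.succ)⁻¹) = ∏ j, lam (c j) := by
    intro c
    unfold law
    rw [Finset.sum_eq_single c]
    · simp
    · intro c' _ hc'
      rw [if_neg]
      intro h
      apply hc'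
      have h2 : (ge G m).symm c' = (ge G m).symm c := by
        have h3 := Prod.mk.inj h
        exact Prod.ext h3.2 h3.1
      exact (ge G m).symm.injective h2
    · intro h
      exact absurd (Finset.mem_univ _) h
  have h2 : ∀ g : Fin m → G, law (fun c : Fin (m + 1) → G => ∏ j, lam (c j))
      (fun c => fun j : Fin m => c 0 * (c j.succ)⁻¹) g = Z lam m g := by
    intro g
    unfold law
    rw [← (ge G m).sum_comp, Fintype.sum_prod_type, Finset.sum_eq_single g]
    · refine Finset.sum_congr rfl fun a _ => ?_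
      refine (if_pos ?_).trans (J_ge lam m (g, a))
      exact congrArg Prod.fst ((ge G m).symm_apply_apply (g, a))
    · intro g' _ hg'
      refine Finset.sum_eq_zero fun a _ => ?_
      rw [if_neg]
      intro h
      apply hg'
      rw [← h]
      exact (congrArg Prod.fst ((ge G m).symm_apply_apply (g', a))).symm
    · intro h
      exact absurd (Finset.mem_univ _) h
  unfold cent ent
  have h3 : -∑ c : Fin (m + 1) → G, (∏ j, lam (c j)) * Real.log
      (law (fun c : Fin (m + 1) → G => ∏ j, lam (c j))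
        (fun c => (c 0, fun j : Fin m => c 0 * (c j.succ)⁻¹))
        (c 0, fun j : Fin m => c 0 * (c j.succ)⁻¹)) -
      -∑ c : Fin (m + 1) → G, (∏ j, lam (c j)) * Real.log
      (law (fun c : Fin (m + 1) → G => ∏ j, lam (c j))
        (fun c => fun j : Fin m => c 0 * (c j.succ)⁻¹)
        (fun j : Fin m => c 0 * (c j.succ)⁻¹)) =
      ∑ c : Fin (m + 1) → G, (∏ j, lam (c j)) * (Real.log
        (Z lam m (fun j : Fin m => c 0 * (c j.succ)⁻¹)) - Real.log (∏ j, lam (c j))) := by
    rw [← Finset.sum_neg_distrib, ← Finset.sum_neg_distrib, ← Finset.sum_sub_distrib]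
    refine Finset.sum_congr rfl fun c _ => ?_
    rw [h1, h2]
    ring
  rw [h3, ← (ge G m).sum_comp, Fintype.sum_prod_type]
  refine Finset.sum_congr rfl fun g _ => Finset.sum_congr rfl fun a _ => ?_
  rw [J_ge]
  have h4 : (fun j : Fin m => (ge G m) (g, a) 0 * ((ge G m) (g, a) j.succ)⁻¹) = g :=
    congrArg Prod.fst ((ge G m).symm_apply_apply (g, a))
  rw [h4]

theorem sum_Z (lam : G → ℝ) (hl : IsLaw lam) (m : ℕ) : ∑ g, Z lam m g = 1 := by
  have h1 : ∑ g : Fin m → G, Z lam m g = ∑ c : Fin (m + 1) → G, ∏ j, lam (c j) := by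
    rw [← (ge G m).sum_comp, Fintype.sum_prod_type]
    refine Finset.sum_congr rfl fun g _ => Finset.sum_congr rfl fun a _ => ?_
    rw [J_ge]
  rw [h1, ← Fintype.sum_pow, hl.2, one_pow]

theorem sum_D (lam : G → ℝ) (hl : IsLaw lam) (m : ℕ) (x : G) (ε : ℝ)
    (h : ∑ g, |lam (g * x⁻¹) - lam g| ≤ ε) :
    ∑ g : Fin m → G, ∑ a, |J lam m g (a * x⁻¹) - J lam m g a| ≤ (m + 1) * ε := by
  have h1 : ∑ g : Fin m → G, ∑ a, |J lam m g (a * x⁻¹) - J lam m g a| =
      ∑ c : Fin (m + 1) → G, |∏ j, (fun b => lam (b * x⁻¹)) (c j) - ∏ j, lam (c j)| := by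
    rw [← (ge G m).sum_comp, Fintype.sum_prod_type]
    refine Finset.sum_congr rfl fun g _ => Finset.sum_congr rfl fun a _ => ?_
    rw [J_ge]
    congr 2
    rw [Fin.prod_univ_succ]
    unfold J ge
    simp [mul_assoc]
  have h2 := tele (fun b => lam (b * x⁻¹)) lam (fun a => hl.1 _) hl.1
    (by
      have := Equiv.sum_comp (Equiv.mulRight x⁻¹) lam
      simp only [Equiv.coe_mulRight] at this
      rw [this]
      exact hl.2) hl.2 (m + 1)
  rw [h1]
  refine h2.trans ?_
  push_cast
  exact mul_le_mul_of_nonneg_left h (by positivity)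

end

theorem thmC2 (hl1 : Pool.Agent.Helper6.NX.S_L1) (hl2 : Pool.Agent.Helper6.NX.S_L2)
    (hl3c : Pool.Agent.Helper6.NX.S_L3C) (hl7 : Pool.Agent.Helper6.NX.S_L7) :
    Pool.Agent.Helper6.NX.S_C2 := by
  intro G _ _ k m x lam ε' e₁ H₀ hk hε hl hNI he₁ hH₀ hmin
  rw [cent_eq]
  set T : ℝ := 2 * k * (m + 1) * ε' with hT
  have hk' : (1 : ℝ) ≤ k := by exact_mod_cast hk
  have hTpos : 0 < T := by positivity
  set D : (Fin m → G) → ℝ := fun g => ∑ i, ∑ a, |J lam m g (a * (x i)⁻¹) - J lam m g a| with hD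
  have hsumD : ∑ g, D g ≤ k * ((m + 1) * ε') := by
    rw [hD, Finset.sum_comm]
    calc ∑ i : Fin k, ∑ g : Fin m → G, ∑ a, |J lam m g (a * (x i)⁻¹) - J lam m g a|
        ≤ ∑ _i : Fin k, ((m + 1) * ε') :=
          Finset.sum_le_sum fun i _ => sum_D lam hl m (x i) ε' (hNI i)
      _ = k * ((m + 1) * ε') := by simp
  have hJ := J_nonneg lam hl.1 m
  have hZ0 : ∀ g, 0 ≤ Z lam m g := fun g => Finset.sum_nonneg fun a _ => hJ g a
  -- the entropy of the conditional law
  have key : ∀ g, (Z lam m g - D g / T) * H₀ ≤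
      ∑ a, J lam m g a * (Real.log (Z lam m g) - Real.log (J lam m g a)) := by
    intro g
    rcases (hZ0 g).eq_or_lt with hz | hz
    · have h1 : ∀ a, J lam m g a = 0 := by
        intro a
        have := (Finset.sum_eq_zero_iff_of_nonneg (fun a _ => hJ g a)).1 hz.symm a
          (Finset.mem_univ a)
        exact this
      have h2 : ∑ a, J lam m g a * (Real.log (Z lam m g) - Real.log (J lam m g a)) = 0 :=
        Finset.sum_eq_zero fun a _ => by rw [h1 a, zero_mul]
      rw [h2, ← hz]
      have h3 : 0 ≤ D g / T := div_nonneg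
        (Finset.sum_nonneg fun i _ => Finset.sum_nonneg fun a _ => abs_nonneg _) hTpos.le
      nlinarith
    · set q : G → ℝ := fun a => J lam m g a / Z lam m g with hq
      have hql : IsLaw q := by
        refine ⟨fun a => div_nonneg (hJ g a) hz.le, ?_⟩
        rw [hq, ← Finset.sum_div]
        exact div_self hz.ne'
      have hHq : Z lam m g * H q =
          ∑ a, J lam m g a * (Real.log (Z lam m g) - Real.log (J lam m g a)) := by
        rw [H_eq, mul_neg, Finset.mul_sum, ← Finset.sum_neg_distrib]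
        refine Finset.sum_congr rfl fun a _ => ?_
        rcases (hJ g a).eq_or_lt with hj | hj
        · rw [hq]
          simp only [← hj]
          simp
        · rw [hq]
          simp only
          rw [Real.log_div hj.ne' hz.ne']
          field_simp
          ring
      rw [← hHq]
      have hH0 : 0 ≤ H q := by
        have := (hl1 G G q (fun g => g) hql).2.2.2.1
        exact this
      by_cases hg : D g ≤ T * Z lam m g
      · have h4 : NI x q e₁ := by
          intro i
          have h5 : ∑ a, |q (a * (x i)⁻¹) - q a| =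
              (∑ a, |J lam m g (a * (x i)⁻¹) - J lam m g a|) / Z lam m g := by
            rw [Finset.sum_div]
            refine Finset.sum_congr rfl fun a _ => ?_
            rw [hq]
            simp only
            rw [← sub_div, abs_div, abs_of_pos hz]
          rw [h5]
          refine le_trans ?_ he₁
          rw [div_le_iff₀ hz]
          refine le_trans ?_ hg
          rw [hD]
          exact Finset.single_le_sum (f := fun i => ∑ a, |J lam m g (a * (x i)⁻¹) - J lam m g a|)
            (fun i _ => Finset.sum_nonneg fun a _ => abs_nonneg _) (Finset.mem_univ i)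
        have h6 := hmin q hql h4
        have h7 : 0 ≤ D g / T := div_nonneg
          (Finset.sum_nonneg fun i _ => Finset.sum_nonneg fun a _ => abs_nonneg _) hTpos.le
        nlinarith
      · push Not at hg
        have h8 : Z lam m g ≤ D g / T := by
          rw [le_div_iff₀ hTpos]
          linarith
        nlinarith [mul_nonneg hz.le hH0]
  have h9 : ∑ g, (Z lam m g - D g / T) * H₀ ≤
      ∑ g : Fin m → G, ∑ a, J lam m g a * (Real.log (Z lam m g) - Real.log (J lam m g a)) :=
    Finset.sum_le_sum fun g _ => key g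
  refine le_trans ?_ h9
  rw [← Finset.sum_mul, Finset.sum_sub_distrib, sum_Z lam hl, ← Finset.sum_div]
  have h10 : (∑ g, D g) / T ≤ 1 / 2 := by
    rw [div_le_iff₀ hTpos, hT]
    linarith
  nlinarith

end Pool.Agent.Helper11.NX
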